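import Mathlib
import Pool.Agent.K7.H9.SS.Defs

/-!
# Hodge-Tate representations: definitions
-/

set_option autoImplicit false

open NumberField IsDedekindDomain Module

namespace Pool.Agent.K7.H9.HT

open Pool.Agent.K7.H9.SS

section

variable (ℓ : ℕ) [Fact ℓ.Prime] {𝕂 : Type} [NormedField 𝕂] [NormedAlgebra ℚ_[ℓ] 𝕂]

/-- The value of the `ℓ`-adic cyclotomic character at `g`, as an element of `ℂ_ℓ`. -/
noncomputable def cyc (g : Gal(AlgebraicClosure ℚ/ℚ)) : PadicComplex ℓ :=
  algebraMap ℚ_[ℓ] (PadicComplex ℓ) (cyclotomicCharacter (AlgebraicClosure ℚ) ℓ g : ℤ_[ℓ])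

variable {ℓ}

/-- `h` is a continuous automorphism of the field `ℂ_ℓ` which fixes the elements of `i(𝕂)` and
induces the automorphism `g` of the field of all algebraic numbers, embedded by `e`. These `h` form
the absolute Galois group of `i(𝕂)`. -/
structure Induces (i : 𝕂 →ₐ[ℚ_[ℓ]] PadicComplex ℓ) (e : AlgebraicClosure ℚ →+* PadicComplex ℓ)
    (h : PadicComplex ℓ ≃+* PadicComplex ℓ) (g : Gal(AlgebraicClosure ℚ/ℚ)) : Prop where
  cont : Continuous h
  fix : ∀ x, h (i x) = i x
  res : ∀ x, h (e x) = e (g x)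

/-- Tate's theorem: for `m ≠ 0` the invariants of `ℂ_ℓ(m)` under the absolute Galois group of `i(𝕂)`
are zero. -/
def TateTheorem (i : 𝕂 →ₐ[ℚ_[ℓ]] PadicComplex ℓ) (e : AlgebraicClosure ℚ →+* PadicComplex ℓ) : Prop :=
  ∀ m : ℤ, m ≠ 0 → ∀ c : PadicComplex ℓ, (∀ h g, Induces i e h g → h c = cyc ℓ g ^ m * c) → c = 0

/-- The representation `ρ` is Hodge-Tate (at the place given by `e`, for the embedding `i` of the
field of coefficients) with the weights `a k`: the semilinear representation on `ℂ_ℓ ⊗ V` has a basis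
(the columns of `P`) on which the group acts by the powers of exponents `- a k` of the cyclotomic
character. (On `H^w(X)` the weight `a` occurs `dim H^(w - a)(X, Ω^a)` times.) -/
def HodgeTate {n : ℕ} (ρ : Gal(AlgebraicClosure ℚ/ℚ) →* GL (Fin n) 𝕂)
    (i : 𝕂 →ₐ[ℚ_[ℓ]] PadicComplex ℓ) (e : AlgebraicClosure ℚ →+* PadicComplex ℓ)
    (a : Fin n → ℤ) : Prop :=
  ∃ P : Matrix (Fin n) (Fin n) (PadicComplex ℓ), P.det ≠ 0 ∧ ∀ h g, Induces i e h g →
    (mat ρ g).map i * P.map h = P * Matrix.diagonal fun k => cyc ℓ g ^ (-a k)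

end

/-- There is a family `S` of `k` of the weights with sum `w k / 2` such that the elements of `S`
together with the numbers `w - x` for `x` in `S` are among the weights (with multiplicities). -/
def IsotropicWeights {n : ℕ} (a : Fin n → ℤ) (w : ℤ) (k : ℕ) : Prop :=
  ∃ S : Multiset ℤ, Multiset.card S = k ∧ 2 * S.sum = w * k ∧
    S + S.map (fun x => w - x) ≤ Multiset.map a Finset.univ.val

end Pool.Agent.K7.H9.HT
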