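import Mathlib

/-!
# Weights of a stable isotropic subspace of a semilinear representation
-/

set_option autoImplicit false

open Module Matrix

namespace Pool.Agent.K7.H9.HT

variable {Ω : Type*} [Field Ω]

/-- A spanning family contains a basis. -/
lemma exists_minor {k : ℕ} {ι : Type*} (v : ι → Fin k → Ω)
    (hspan : Submodule.span Ω (Set.range v) = ⊤) :
    ∃ s : Fin k → ι, Function.Injective s ∧ (Matrix.of fun j => v (s j)).det ≠ 0 := by
  obtain ⟨κ, b, hb, hs, hli⟩ := exists_linearIndependent' Ω v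
  have hfin : Finite κ := hli.finite
  let _ : Fintype κ := Fintype.ofFinite κ
  have hB : Submodule.span Ω (Set.range (v ∘ b)) = ⊤ := hs.trans hspan
  let B := Basis.mk hli hB.ge
  have hcard : Fintype.card κ = k := by
    have h1 := Module.finrank_eq_card_basis B
    rw [finrank_fin_fun] at h1
    exact h1.symm
  let e : Fin k ≃ κ := (finCongr hcard.symm).trans (Fintype.equivFin κ).symm
  refine ⟨fun j => b (e j), hb.comp e.injective, ?_⟩
  have h1 : LinearIndependent Ω (fun j => v (b (e j))) := hli.comp e e.injective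
  have h2 : IsUnit (Matrix.of fun j => v (b (e j))) := Matrix.linearIndependent_rows_iff_isUnit.1 h1
  exact ((Matrix.isUnit_iff_isUnit_det _).1 h2).ne_zero

lemma exists_perm {k : ℕ} {A : Matrix (Fin k) (Fin k) Ω} (h : A.det ≠ 0) :
    ∃ π : Equiv.Perm (Fin k), ∀ j, A (π j) j ≠ 0 := by
  rw [Matrix.det_apply] at h
  obtain ⟨π, -, hπ⟩ := Finset.exists_ne_zero_of_sum_ne_zero h
  refine ⟨π, fun j hj => hπ ?_⟩
  have h1 : ∏ i, A (π i) i = 0 := Finset.prod_eq_zero (Finset.mem_univ j) hj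
  exact (congrArg (fun z => Equiv.Perm.sign π • z) h1).trans (smul_zero _)

/-- The rows of a matrix with a left inverse span. -/
lemma span_rows {k : ℕ} {ι : Type*} [Fintype ι] {X : Matrix ι (Fin k) Ω} {L : Matrix (Fin k) ι Ω}
    (hL : L * X = 1) : Submodule.span Ω (Set.range fun i => X i) = ⊤ := by
  rw [eq_top_iff]
  intro v _
  have h1 : v = ∑ i, (Matrix.vecMul v L) i • X i := by
    have h2 : Matrix.vecMul (Matrix.vecMul v L) X = v := by
      rw [Matrix.vecMul_vecMul, hL, Matrix.vecMul_one]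
    conv_lhs => rw [← h2]
    funext j
    rw [Finset.sum_apply]
    rfl
  rw [h1]
  exact Submodule.sum_mem _ fun i _ => Submodule.smul_mem _ _ (Submodule.subset_span ⟨i, rfl⟩)

section weights

variable {Γ : Type*} (h : Γ → Ω ≃+* Ω) (x : Γ → Ω) (hx : ∀ γ, x γ ≠ 0)
  (tate : ∀ m : ℤ, m ≠ 0 → ∀ c : Ω, (∀ γ, h γ c = x γ ^ m * c) → c = 0)
  {n k : ℕ} (a : Fin n → ℤ) (P : Matrix (Fin n) (Fin n) Ω) (hP : P.det ≠ 0)
  (R : Γ → Matrix (Fin n) (Fin n) Ω)
  (hR : ∀ γ, R γ * P.map (h γ) = P * Matrix.diagonal fun s => x γ ^ (-a s))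
  (B : Matrix (Fin n) (Fin k) Ω) (hB : ∀ γ, B.map (h γ) = B) (L : Matrix (Fin k) (Fin n) Ω)
  (hL : L * B = 1) (C : Γ → Matrix (Fin k) (Fin k) Ω) (hC : ∀ γ, R γ * B = B * C γ)
  {N : ℕ} {A : ℤ} (hdet : ∀ γ, (C γ).det ^ N = x γ ^ A)

include hx tate hP hR hB hL hC hdet

/-- The coordinates of a stable subspace. -/
theorem exists_Y : ∃ (r : Fin k → Fin n) (Y : Matrix (Fin n) (Fin k) Ω) (E : Matrix (Fin k) (Fin k) Ω),
    Function.Injective r ∧ N * ∑ j, a (r j) = -A ∧ Y.submatrix r id = 1 ∧ P * Y = B * E ∧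
      (∃ L' : Matrix (Fin k) (Fin n) Ω, L' * Y = 1) ∧ ∀ s j, Y s j ≠ 0 → a s = a (r j) := by
  classical
  have hPu : IsUnit P.det := isUnit_iff_ne_zero.2 hP
  obtain ⟨X, hPX⟩ : ∃ X : Matrix (Fin n) (Fin k) Ω, P * X = B :=
    ⟨P⁻¹ * B, Matrix.mul_nonsing_inv_cancel_left _ _ hPu⟩
  have hLX : (L * P) * X = 1 := by rw [Matrix.mul_assoc, hPX, hL]
  have key : ∀ γ, (Matrix.diagonal fun s => x γ ^ (-a s)) * X.map (h γ) = X * C γ := by
    intro γ
    have h1 : P * ((Matrix.diagonal fun s => x γ ^ (-a s)) * X.map (h γ)) = P * (X * C γ) := by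
      rw [← Matrix.mul_assoc, ← hR, Matrix.mul_assoc, ← Matrix.map_mul, hPX, hB, hC,
        ← Matrix.mul_assoc, hPX]
    have h2 : P⁻¹ * (P * ((Matrix.diagonal fun s => x γ ^ (-a s)) * X.map (h γ))) =
      P⁻¹ * (P * (X * C γ)) := congrArg (fun M => P⁻¹ * M) h1
    rwa [Matrix.nonsing_inv_mul_cancel_left _ _ hPu, Matrix.nonsing_inv_mul_cancel_left _ _ hPu]
      at h2
  obtain ⟨r, hr, hδ⟩ := exists_minor (fun i => X i) (span_rows hLX)
  obtain ⟨Xr, hXr⟩ : ∃ Xr : Matrix (Fin k) (Fin k) Ω, Xr = Matrix.of fun j => X (r j) := ⟨_, rfl⟩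
  rw [← hXr] at hδ
  have hXru : IsUnit Xr.det := isUnit_iff_ne_zero.2 hδ
  have keyr : ∀ γ, (Matrix.diagonal fun j => x γ ^ (-a (r j))) * Xr.map (h γ) = Xr * C γ := by
    intro γ
    ext j l
    have h1 := congrFun (congrFun (key γ) (r j)) l
    rw [Matrix.diagonal_mul] at h1
    rw [Matrix.diagonal_mul, hXr]
    exact h1
  have hdetmap : ∀ γ, (Xr.map (h γ)).det = h γ Xr.det := by
    intro γ
    exact (RingEquiv.map_det (h γ) Xr).symm
  have hsum : (N : ℤ) * ∑ j, a (r j) = -A := by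
    by_contra hne
    have hm : A + N * ∑ j, a (r j) ≠ 0 := fun h0 => hne (by linarith)
    refine (pow_ne_zero N hδ) (tate _ hm _ fun γ => ?_)
    have h1 := congrArg Matrix.det (keyr γ)
    rw [Matrix.det_mul, Matrix.det_mul, Matrix.det_diagonal, hdetmap] at h1
    have h2 : ∏ j, x γ ^ (-a (r j)) = x γ ^ (-∑ j, a (r j)) := by
      rw [← Finset.sum_neg_distrib]
      have h3 : ∀ s : Finset (Fin k), ∏ j ∈ s, x γ ^ (-a (r j)) = x γ ^ (∑ j ∈ s, -a (r j)) := by
        intro s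
        induction s using Finset.induction_on with
        | empty => simp
        | insert j s hj ih => rw [Finset.prod_insert hj, Finset.sum_insert hj, ih, zpow_add₀ (hx γ)]
      exact h3 _
    rw [h2] at h1
    have h3 := congrArg (fun z => z ^ N) h1
    simp only [mul_pow] at h3
    rw [hdet, ← map_pow, ← zpow_natCast (x γ ^ (-∑ j, a (r j))), ← _root_.zpow_mul] at h3
    have h4 : x γ ^ ((∑ j, a (r j)) * N) * x γ ^ (-(∑ j, a (r j)) * (N : ℤ)) = 1 := by
      rw [← zpow_add₀ (hx γ)]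
      have : (∑ j, a (r j)) * (N : ℤ) + -(∑ j, a (r j)) * (N : ℤ) = 0 := by ring
      rw [this, zpow_zero]
    have h5 : h γ (Xr.det ^ N) = x γ ^ ((∑ j, a (r j)) * N) * (Xr.det ^ N * x γ ^ A) := by
      rw [← h3, ← mul_assoc, h4, one_mul]
    rw [h5, zpow_add₀ (hx γ), mul_comm (N : ℤ)]
    ring
  obtain ⟨Y, hY⟩ : ∃ Y : Matrix (Fin n) (Fin k) Ω, Y = X * Xr⁻¹ := ⟨_, rfl⟩
  have hYX : Y * Xr = X := by rw [hY, Matrix.nonsing_inv_mul_cancel_right _ _ hXru]
  have keyY : ∀ γ, (Matrix.diagonal fun s => x γ ^ (-a s)) * Y.map (h γ) =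
      Y * Matrix.diagonal fun j => x γ ^ (-a (r j)) := by
    intro γ
    have hu : IsUnit (Xr.map (h γ)).det := by
      rw [hdetmap]
      exact isUnit_iff_ne_zero.2 ((map_ne_zero (h γ)).2 hδ)
    have h1 : (Matrix.diagonal fun s => x γ ^ (-a s)) * Y.map (h γ) * Xr.map (h γ) =
        (Y * Matrix.diagonal fun j => x γ ^ (-a (r j))) * Xr.map (h γ) := by
      rw [Matrix.mul_assoc, ← Matrix.map_mul, hYX, key, Matrix.mul_assoc, keyr, ← Matrix.mul_assoc Y,
        hYX]
    have h2 : (Matrix.diagonal fun s => x γ ^ (-a s)) * Y.map (h γ) * Xr.map (h γ) *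
        (Xr.map (h γ))⁻¹ = (Y * Matrix.diagonal fun j => x γ ^ (-a (r j))) * Xr.map (h γ) *
        (Xr.map (h γ))⁻¹ := congrArg (fun M => M * (Xr.map (h γ))⁻¹) h1
    rwa [Matrix.mul_nonsing_inv_cancel_right _ _ hu, Matrix.mul_nonsing_inv_cancel_right _ _ hu]
      at h2
  refine ⟨r, Y, Xr⁻¹, hr, hsum, ?_, ?_, ⟨Xr * (L * P), ?_⟩, ?_⟩
  · have h1 : Y.submatrix r id = Xr * Xr⁻¹ := by
      rw [hY, hXr]
      ext j l
      rfl
    rw [h1, Matrix.mul_nonsing_inv _ hXru]
  · rw [hY, ← Matrix.mul_assoc, hPX]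
  · rw [hY, ← Matrix.mul_assoc, Matrix.mul_assoc Xr, hLX, Matrix.mul_one,
      Matrix.mul_nonsing_inv _ hXru]
  · intro s j hne
    by_contra ha
    have hm : a s - a (r j) ≠ 0 := fun h0 => ha (by linarith)
    refine hne (tate _ hm _ fun γ => ?_)
    have h1 := congrFun (congrFun (keyY γ) s) j
    rw [Matrix.diagonal_mul, Matrix.mul_diagonal, Matrix.map_apply] at h1
    rw [zpow_sub₀ (hx γ), div_eq_mul_inv, ← _root_.zpow_neg, mul_assoc, mul_comm _ (Y s j), ← h1,
      ← mul_assoc, ← zpow_add₀ (hx γ)]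
    have : a s + -a s = 0 := by ring
    rw [this, zpow_zero, one_mul]

end weights

section form

variable {Γ : Type*} (h : Γ → Ω ≃+* Ω) (x : Γ → Ω) (hx : ∀ γ, x γ ≠ 0)
  (tate : ∀ m : ℤ, m ≠ 0 → ∀ c : Ω, (∀ γ, h γ c = x γ ^ m * c) → c = 0)
  {n k : ℕ} (a : Fin n → ℤ) (P : Matrix (Fin n) (Fin n) Ω) (hP : P.det ≠ 0)
  (R : Γ → Matrix (Fin n) (Fin n) Ω)
  (hR : ∀ γ, R γ * P.map (h γ) = P * Matrix.diagonal fun s => x γ ^ (-a s))
  (J : Matrix (Fin n) (Fin n) Ω) (hJfix : ∀ γ, J.map (h γ) = J) (hJdet : J.det ≠ 0) {w : ℤ}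
  (hJ : ∀ γ, (R γ)ᵀ * J * R γ = x γ ^ (-w) • J)

include hx tate hR hJfix hJ in
/-- The form pairs the weights `a` and `w - a`. -/
theorem gram (s t : Fin n) (hne : (Pᵀ * J * P) s t ≠ 0) : a s + a t = w := by
  by_contra ha
  have hm : w - a s - a t ≠ 0 := fun h0 => ha (by linarith)
  refine hne (tate _ hm _ fun γ => ?_)
  obtain ⟨D, hD⟩ : ∃ D : Matrix (Fin n) (Fin n) Ω, D = Matrix.diagonal fun s => x γ ^ (-a s) :=
    ⟨_, rfl⟩
  have hRγ := hR γ
  rw [← hD] at hRγ
  have hDt : Dᵀ = D := by rw [hD, Matrix.diagonal_transpose]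
  have h1 : (P.map (h γ))ᵀ * ((R γ)ᵀ * J * R γ) * P.map (h γ) = D * (Pᵀ * J * P) * D := by
    have h2 : (P.map (h γ))ᵀ * ((R γ)ᵀ * J * R γ) * P.map (h γ) =
        (R γ * P.map (h γ))ᵀ * J * (R γ * P.map (h γ)) := by
      rw [Matrix.transpose_mul]
      simp only [Matrix.mul_assoc]
    rw [h2, hRγ, Matrix.transpose_mul, hDt]
    simp only [Matrix.mul_assoc]
  rw [hJ, Matrix.mul_smul, Matrix.smul_mul] at h1
  have h3 : (P.map (h γ))ᵀ * J * P.map (h γ) = (Pᵀ * J * P).map (h γ) := by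
    rw [Matrix.map_mul, Matrix.map_mul, hJfix, Matrix.transpose_map]
  rw [h3] at h1
  have h4 := congrFun (congrFun h1 s) t
  rw [Matrix.smul_apply, Matrix.map_apply, smul_eq_mul, hD, Matrix.mul_diagonal,
    Matrix.diagonal_mul] at h4
  have h5 : x γ ^ w * x γ ^ (-w) = 1 := by rw [← zpow_add₀ (hx γ), add_neg_cancel, zpow_zero]
  have h6 : h γ ((Pᵀ * J * P) s t) =
      x γ ^ w * (x γ ^ (-a s) * (Pᵀ * J * P) s t * x γ ^ (-a t)) := by
    rw [← h4, ← mul_assoc, h5, one_mul]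
  rw [h6, sub_eq_add_neg, sub_eq_add_neg, zpow_add₀ (hx γ), zpow_add₀ (hx γ)]
  ring

include hx tate hP hR hJfix hJdet hJ in
/-- The complementary weights. -/
theorem exists_s {r : Fin k → Fin n} {Y : Matrix (Fin n) (Fin k) Ω} (hYr : Y.submatrix r id = 1)
    {L' : Matrix (Fin k) (Fin n) Ω} (hL' : L' * Y = 1) (hY : ∀ s j, Y s j ≠ 0 → a s = a (r j))
    (hiso : (P * Y)ᵀ * J * (P * Y) = 0) :
    ∃ s : Fin k → Fin n, Function.Injective s ∧ (∀ j l, s j ≠ r l) ∧
      ∀ j, a (s j) = w - a (r j) := by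
  classical
  obtain ⟨G, hG⟩ : ∃ G : Matrix (Fin n) (Fin n) Ω, G = Pᵀ * J * P := ⟨_, rfl⟩
  have hGdet : IsUnit G.det := by
    rw [hG, Matrix.det_mul, Matrix.det_mul, Matrix.det_transpose]
    exact isUnit_iff_ne_zero.2 (mul_ne_zero (mul_ne_zero hP hJdet) hP)
  obtain ⟨Z, hZ⟩ : ∃ Z : Matrix (Fin k) (Fin n) Ω, Z = Yᵀ * G := ⟨_, rfl⟩
  have hZY : Z * Y = 0 := by
    rw [hZ, hG, ← hiso, Matrix.transpose_mul]
    simp only [Matrix.mul_assoc]
  have hZr : Z * (G⁻¹ * L'ᵀ) = 1 := by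
    rw [hZ, ← Matrix.mul_assoc, Matrix.mul_nonsing_inv_cancel_right _ _ hGdet,
      ← Matrix.transpose_mul, hL', Matrix.transpose_one]
  have hZa : ∀ j s, Z j s ≠ 0 → a s = w - a (r j) := by
    intro j s hne
    rw [hZ, Matrix.mul_apply] at hne
    obtain ⟨t, -, ht⟩ := Finset.exists_ne_zero_of_sum_ne_zero hne
    rw [Matrix.transpose_apply] at ht
    have h1 := hY t j (left_ne_zero_of_mul ht)
    have h2 : (Pᵀ * J * P) t s ≠ 0 := by
      rw [← hG]
      exact right_ne_zero_of_mul ht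
    have h3 := gram h x hx tate a P R hR J hJfix hJ t s h2
    linarith
  -- the columns outside of the range of `r` span
  set v : {t : Fin n // t ∉ Set.range r} → Fin k → Ω := fun t j => Z j t with hv
  have hspan : Submodule.span Ω (Set.range v) = ⊤ := by
    have hall : Submodule.span Ω (Set.range fun t => Zᵀ t) = ⊤ := by
      apply span_rows (L := (G⁻¹ * L'ᵀ)ᵀ)
      rw [← Matrix.transpose_mul, hZr, Matrix.transpose_one]
    rw [eq_top_iff, ← hall]
    apply Submodule.span_le.2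
    rintro _ ⟨t, rfl⟩
    by_cases ht : t ∈ Set.range r
    · obtain ⟨l, rfl⟩ := ht
      -- `Z Y = 0` at the column `l`
      have h1 : (fun j => Z j (r l)) =
          -∑ t : {t : Fin n // t ∉ Set.range r}, Y t l • v t := by
        funext j
        have h2 := congrFun (congrFun hZY j) l
        rw [Matrix.mul_apply, Matrix.zero_apply] at h2
        have h3 : ∑ t, Z j t * Y t l = Z j (r l) +
            ∑ t : {t : Fin n // t ∉ Set.range r}, Z j t * Y t l := by
          have h4 : ∑ t, Z j t * Y t l = ∑ t ∈ Finset.univ.filter (· ∈ Set.range r), Z j t * Y t l +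
              ∑ t ∈ Finset.univ.filter (· ∉ Set.range r), Z j t * Y t l :=
            (Finset.sum_filter_add_sum_filter_not _ _ _).symm
          rw [h4]
          congr 1
          · rw [Finset.sum_eq_single (r l)]
            · have h5 := congrFun (congrFun hYr l) l
              rw [Matrix.submatrix_apply, Matrix.one_apply_eq] at h5
              rw [show Y (r l) l = 1 from h5, mul_one]
            · intro t ht hne
              obtain ⟨l', rfl⟩ := (Finset.mem_filter.1 ht).2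
              have hll : l' ≠ l := fun h0 => hne (by rw [h0])
              have h5 := congrFun (congrFun hYr l') l
              rw [Matrix.submatrix_apply, Matrix.one_apply_ne hll] at h5
              rw [show Y (r l') l = 0 from h5, mul_zero]
            · intro hno
              exact absurd (Finset.mem_filter.2 ⟨Finset.mem_univ _, ⟨l, rfl⟩⟩) hno
          · exact Finset.sum_subtype _ (fun t => by simp) _
        rw [h3] at h2
        rw [Pi.neg_apply, Finset.sum_apply]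
        have h5 : ∀ t : {t : Fin n // t ∉ Set.range r}, (Y t l • v t) j = Z j t * Y t l :=
          fun t => by rw [Pi.smul_apply, smul_eq_mul, mul_comm]
        simp only [h5]
        linear_combination h2
      change (fun j => Z j (r l)) ∈ _
      rw [h1]
      exact Submodule.neg_mem _ (Submodule.sum_mem _ fun t _ =>
        Submodule.smul_mem _ _ (Submodule.subset_span ⟨t, rfl⟩))
    · exact Submodule.subset_span ⟨⟨t, ht⟩, rfl⟩
  obtain ⟨s, hs, hsd⟩ := exists_minor v hspan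
  obtain ⟨π, hπ⟩ := exists_perm hsd
  refine ⟨fun j => (s (π j)).1, ?_, ?_, ?_⟩
  · intro j l hjl
    exact π.injective (hs (Subtype.ext hjl))
  · intro j l hjl
    exact (s (π j)).2 ⟨l, hjl.symm⟩
  · intro j
    exact hZa j _ (hπ j)

end form

end Pool.Agent.K7.H9.HT
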