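import Pool.Agent.K7.H9.HT.Defs
import Pool.Agent.K7.H9.HT.Lin
import Pool.Agent.K7.H9.SS.Sem

/-!
# Semisimplicity over `ℚ` from Hodge-Tate weights and Euler factors
-/

set_option autoImplicit false
set_option linter.unusedSectionVars false

open NumberField IsDedekindDomain Module Matrix

namespace Pool.Agent.K7.H9.HT

open Pool.Agent.K7.H9.SS
open Pool.Agent.W569.FM Pool.Agent.W571.FM Pool.Agent.Y115.Chi Pool.Agent.Y115.T
  Pool.Agent.Y115.R Pool.Agent.Y115.CQ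

variable (ℓ : ℕ) [hℓ : Fact ℓ.Prime]
  {𝕂 : Type} [NormedField 𝕂] [NormedAlgebra ℚ_[ℓ] 𝕂] [FiniteDimensional ℚ_[ℓ] 𝕂] {n : ℕ}
  (ρ : Gal(AlgebraicClosure ℚ/ℚ) →* GL (Fin n) 𝕂)

/-- The determinant of a stable subspace is a power of the cyclotomic character, up to finite order,
and the exponent is determined by the weight. -/
theorem exists_char (hρ : Continuous ρ) (j : 𝕂 →+* ℂ) (w : ℤ)
    (R : HeightOneSpectrum (𝓞 ℚ) → Multiset ℂ)
    (T : Set ℕ) (hT3 : 3 ≤ T.encard) (hT : ∀ p ∈ T, p.Prime ∧ p ≠ ℓ ∧ UnramifiedIn ℚ p)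
    (hR : ∀ p ∈ T, ∀ v, Above v p → PureAt ρ j w v (R v))
    (hgood : ∃ p ∈ T, ∀ v, Above v p → ∀ a ∈ R v, ‖a‖ ^ 2 = (qq v : ℝ) ^ w)
    (U : Submodule 𝕂 (Fin n → 𝕂)) (hU : Stable ρ U) (hU' : ∀ g, U ≤ U.comap (act ρ g)) :
    ∃ (N : ℕ) (a : ℤ), 0 < N ∧ (∀ g, dt ρ U hU' g ^ N = chiE ℓ 𝕂 g ^ a) ∧
      w * finrank 𝕂 U * N = -(2 * a) := by
  classical
  have hcompl : CompleteSpace 𝕂 := FiniteDimensional.complete ℚ_[ℓ] 𝕂
  have hultra : IsUltrametricDist 𝕂 := IsUltrametricDist.of_normedAlgebra ℚ_[ℓ]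
  have hchar : CharZero 𝕂 := charZero_of_injective_algebraMap (algebraMap ℚ_[ℓ] 𝕂).injective
  set ψ : GF ℚ →* 𝕂ˣ := dt ρ U hU' with hψ
  have hψc : Continuous ψ := continuous_dt ℓ ρ hρ U hU'
  obtain ⟨UC, hfr, hUC, hUJ⟩ := exists_cx j U
  have hjalg : ∀ x : 𝕂, IsAlgebraic ℚ (j x) → IsAlgebraic ℚ x := by
    intro x hx
    exact (isAlgebraic_algHom_iff (RingHom.toRatAlgHom j) j.injective).1 hx
  -- the data at the primes
  have hloc : ∀ p ∈ T, ∃ (v : HeightOneSpectrum (𝓞 ℚ)) (Q : Ideal (OO ℚ)) (σ : GF ℚ)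
      (Φ N : Module.End ℂ (Fin n → ℂ)), Above v p ∧ qq v = p ∧ Q.IsPrime ∧ (p : OO ℚ) ∈ Q ∧
      FrobAt p Q σ ∧ LocalOK (qq v) w Φ N (R v) UC ∧
      (rt Φ UC).prod = j ((ψ σ⁻¹ : 𝕂ˣ) : 𝕂) := by
    intro p hp
    obtain ⟨P, σ', hP, hpP, hσ'⟩ := exists_frobQ (hT p hp).1
    obtain ⟨M, S, hM, hS, heq, f, hf, hsum⟩ := transfer_frob (1 : GF ℚ →* 𝕂ˣ) (hT p hp).1 hP hpP hσ'
      (hT p hp).2.2 (fun _ => 1) (fun v _ Q _ _ => ⟨fun _ _ => rfl, fun _ _ => rfl⟩)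
    rw [Module.finrank_self] at hsum
    have hex : ∃ v ∈ S, f v ≠ 0 := by
      by_contra hcon
      push Not at hcon
      rw [Finset.sum_eq_zero hcon] at hsum
      exact zero_ne_one hsum
    obtain ⟨v, hv, hfv⟩ := hex
    have hf1 : f v = 1 := by
      have h1 := Finset.single_le_sum (f := f) (fun _ _ => Nat.zero_le _) hv
      omega
    have hvp : Above v p := (hS v).1 hv
    have hq : qq v = p := by
      have := hf v hv
      rwa [hf1, pow_one] at this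
    obtain ⟨Φ, N, Q₀, σ₀, g, h1, h2, h3, h4, h5, h6, h7, h8, h9, h10, h11⟩ :=
      local_all (hR p hp v hvp)
    refine ⟨v, Q₀, σ₀, cx j Φ, cx j N, hvp, hq, h2.1, ?_, ?_, ?_, ?_⟩
    · have h12 : cm Q₀ = v.asIdeal := h2.2
      rw [← natCast_mem_cm, h12]
      exact hvp
    · rw [hq] at h3
      exact h3
    · exact local_ok h1 h2 h4 h5 h6 h7 h9 h10 h11 hU fun A hA => (hUC A hA).1
    · have h12 : ∀ x ∈ U, (Matrix.mulVecLin Φ) x ∈ U := fun x hx => by rw [h5]; exact hU _ x hx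
      rw [(hUC Φ h12).2]
      congr 1
      change _ = LinearMap.det (res ρ U hU' σ₀⁻¹)
      congr 1
      apply LinearMap.ext
      intro x
      apply Subtype.ext
      change Φ.mulVec x = (mat ρ σ₀⁻¹).mulVec x
      rw [h5]
  choose v Q σ Φ N hv hq hQ hpQ hσ hok hD using hloc
  have halg : ∀ p (hp : p ∈ T), IsAlgebraic ℚ (ψ (σ p hp) : 𝕂) := by
    intro p hp
    have h := hok p hp
    have h1 : IsAlgebraic ℚ (rt (Φ p hp) UC).prod := by
      apply Pool.Agent.Y115.M.isAlgebraic_multiset_prod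
      intro a ha
      have := h.hq
      exact alg_rt (by omega) h.hN h.hnil (fun a ha => h.halg a (by rw [h.hR]; exact ha)) h.hU a ha
    rw [hD p hp] at h1
    have h2 := hjalg _ h1
    rw [map_inv, Units.val_inv_eq_inv_val] at h2
    exact IsAlgebraic.inv_iff.1 h2
  obtain ⟨t, htT, ht3⟩ := Set.exists_subset_encard_eq hT3
  have htfin : t.Finite := Set.finite_of_encard_eq_coe ht3
  have htc : Nat.card t = 3 := by
    have h1 : Nat.card t = t.ncard := Nat.card_coe_set_eq t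
    have h2 : (t.ncard : ℕ∞) = 3 := by rw [htfin.cast_ncard_eq]; exact ht3
    rw [h1]
    exact_mod_cast h2
  have hfin : Finite t := htfin
  obtain ⟨e⟩ : Nonempty (Fin 3 ≃ t) := by
    rw [← htc]
    exact ⟨(Finite.equivFin t).symm⟩
  have hlT : ∀ i, (e i : ℕ) ∈ T := fun i => htT (e i).2
  obtain ⟨N₀, a, hN₀, hNa⟩ := char_main ψ hψc (fun i => (e i : ℕ)) (fun i => (hT _ (hlT i)).1)
    (fun i j hij => e.injective (Subtype.ext hij)) (fun i => (hT _ (hlT i)).2.1)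
    (fun i => Q _ (hlT i)) (fun i => hQ _ _) (fun i => hpQ _ _)
    (fun i => σ _ (hlT i)) (fun i => hσ _ _) (fun i => halg _ _)
  refine ⟨N₀, a, hN₀, hNa, ?_⟩
  obtain ⟨p, hp, hg⟩ := hgood
  have hok' := hok p hp
  have he : ex (Φ p hp) (qq (v p hp)) w UC = 0 := hok'.good (hg _ (hv p hp))
  have hnorm := norm_rt hok'.hq hok'.hF w hok'.hU
  rw [he, hfr, add_zero, hq p hp] at hnorm
  have hpp := (hT p hp).1
  have hp0 : (p : ℝ) ≠ 0 := Nat.cast_ne_zero.2 hpp.ne_zero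
  have hp1 : (1 : ℝ) < (p : ℝ) := by exact_mod_cast hpp.one_lt
  have hχ : (chiE ℓ 𝕂 (σ p hp) : 𝕂) = (p : 𝕂) := by
    rw [coe_chiE, chi_frob (hQ p hp) (not_mem_of_ne hpp (hT p hp).2.1 (hQ p hp).ne_top (hpQ p hp))
      (hσ p hp)]
    simp
  have h1 : (rt (Φ p hp) UC).prod ^ N₀ = (p : ℂ) ^ (-a) := by
    rw [hD p hp, map_inv, Units.val_inv_eq_inv_val, map_inv₀, inv_pow, ← map_pow,
      ← Units.val_pow_eq_pow_val, hNa, Units.val_zpow_eq_zpow_val, hχ, map_zpow₀, map_natCast,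
      _root_.zpow_neg]
  have h2 : (p : ℝ) ^ (w * finrank 𝕂 U * N₀) = (p : ℝ) ^ (-a * 2) := by
    rw [_root_.zpow_mul, ← hnorm, zpow_natCast, ← pow_mul, mul_comm 2, pow_mul, ← norm_pow, h1,
      norm_zpow, Complex.norm_natCast, _root_.zpow_mul]
    rfl
  have h3 := zpow_right_injective₀ (by linarith) hp1.ne' h2
  rw [h3]
  ring

/-- All prime numbers are unramified in `ℚ`. -/
lemma unramifiedIn_rat {p : ℕ} (hp : p.Prime) : UnramifiedIn ℚ p := by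
  intro v hv h2
  let e : 𝓞 ℚ ≃+* ℤ := Rat.ringOfIntegersEquiv
  have hpz : Prime (p : ℤ) := Nat.prime_iff_prime_int.1 hp
  have hpz0 : (p : ℤ) ≠ 0 := hpz.ne_zero
  have hmax : (Ideal.span {(p : ℤ)}).IsMaximal :=
    ((Ideal.span_singleton_prime hpz0).2 hpz).isMaximal (by rwa [Ne, Ideal.span_singleton_eq_bot])
  have hmem : ∀ {I : Ideal (𝓞 ℚ)}, (p : 𝓞 ℚ) ∈ I → (p : ℤ) ∈ I.map (e : 𝓞 ℚ →+* ℤ) := by
    intro I hI
    have h3 := Ideal.mem_map_of_mem (e : 𝓞 ℚ →+* ℤ) hI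
    rwa [map_natCast] at h3
  have hne : v.asIdeal.map (e : 𝓞 ℚ →+* ℤ) ≠ ⊤ := by
    intro h
    apply v.isPrime.ne_top
    have h3 : (v.asIdeal.map (e : 𝓞 ℚ →+* ℤ)).comap (e : 𝓞 ℚ →+* ℤ) = v.asIdeal :=
      Ideal.comap_map_of_bijective (e : 𝓞 ℚ →+* ℤ) e.bijective
    rw [← h3, h, Ideal.comap_top]
  have heq : Ideal.span {(p : ℤ)} = v.asIdeal.map (e : 𝓞 ℚ →+* ℤ) :=
    hmax.eq_of_le hne ((Ideal.span_singleton_le_iff_mem _).2 (hmem hv))
  have h3 := hmem h2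
  rw [Ideal.map_pow, ← heq, Ideal.span_singleton_pow, Ideal.mem_span_singleton] at h3
  obtain ⟨c, hc⟩ := h3
  have h4 : (p : ℤ) * c = 1 := by
    apply mul_left_cancel₀ hpz0
    rw [mul_one]
    linear_combination -hc
  exact hpz.not_unit (IsUnit.of_mul_eq_one c h4)

/-- The weights of an isotropic stable subspace. -/
theorem isotropic_weights {w : ℤ} {a : Fin n → ℤ} {i : 𝕂 →ₐ[ℚ_[ℓ]] PadicComplex ℓ}
    {e : AlgebraicClosure ℚ →+* PadicComplex ℓ} (htate : TateTheorem i e)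
    (hHT : HodgeTate ρ i e a) {J : Matrix (Fin n) (Fin n) 𝕂} (hJ : IsPol ℓ ρ w J)
    {U : Submodule 𝕂 (Fin n → 𝕂)} (hU : Stable ρ U) (hU' : ∀ g, U ≤ U.comap (act ρ g))
    (hiso : ∀ x ∈ U, ∀ y ∈ U, dotProduct x (J.mulVec y) = 0) {N : ℕ} {A : ℤ} (hN : 0 < N)
    (hdt : ∀ g, dt ρ U hU' g ^ N = chiE ℓ 𝕂 g ^ A) (hwA : w * finrank 𝕂 U * N = -(2 * A)) :
    IsotropicWeights a w (finrank 𝕂 U) := by
  classical
  have hcompl : CompleteSpace 𝕂 := FiniteDimensional.complete ℚ_[ℓ] 𝕂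
  have hultra : IsUltrametricDist 𝕂 := IsUltrametricDist.of_normedAlgebra ℚ_[ℓ]
  have hchar : CharZero 𝕂 := charZero_of_injective_algebraMap (algebraMap ℚ_[ℓ] 𝕂).injective
  obtain ⟨P, hPdet, hP⟩ := hHT
  obtain ⟨hJdet, hpol⟩ := hJ
  obtain ⟨B, hBU, ⟨L, hL⟩, hA⟩ := exists_base U
  have hC : ∀ g : GF ℚ, ∃ C : Matrix (Fin (finrank 𝕂 U)) (Fin (finrank 𝕂 U)) 𝕂,
      mat ρ g * B = B * C ∧ C.det = ((dt ρ U hU' g : 𝕂ˣ) : 𝕂) := by
    intro g
    obtain ⟨C, h1, h2⟩ := hA (mat ρ g) (fun x hx => hU g x hx)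
    exact ⟨C, h1, h2⟩
  choose C hC1 hC2 using hC
  let Γ : Type := {q : (PadicComplex ℓ ≃+* PadicComplex ℓ) × GF ℚ // Induces i e q.1 q.2}
  let h : Γ → PadicComplex ℓ ≃+* PadicComplex ℓ := fun γ => γ.1.1
  let x : Γ → PadicComplex ℓ := fun γ => cyc ℓ γ.1.2
  have hcyc : ∀ g : GF ℚ, cyc ℓ g = i ((chiE ℓ 𝕂 g : 𝕂ˣ) : 𝕂) := by
    intro g
    rw [coe_chiE, AlgHom.commutes]
    rfl
  have hx : ∀ γ, x γ ≠ 0 := by
    intro γ
    change cyc ℓ γ.1.2 ≠ 0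
    rw [hcyc]
    exact (map_ne_zero i).2 (Units.ne_zero _)
  have tate : ∀ m : ℤ, m ≠ 0 → ∀ c : PadicComplex ℓ, (∀ γ, h γ c = x γ ^ m * c) → c = 0 :=
    fun m hm c hc => htate m hm c fun h' g hg => hc ⟨(h', g), hg⟩
  let R : Γ → Matrix (Fin n) (Fin n) (PadicComplex ℓ) := fun γ => (mat ρ γ.1.2).map i
  have hR : ∀ γ, R γ * P.map (h γ) = P * Matrix.diagonal fun s => x γ ^ (-a s) :=
    fun γ => hP γ.1.1 γ.1.2 γ.2
  have hfixM : ∀ {m k : ℕ} (M : Matrix (Fin m) (Fin k) 𝕂) (γ : Γ), (M.map i).map (h γ) = M.map i := by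
    intro m k M γ
    ext s t
    exact γ.2.fix _
  have hmm : ∀ {m k l : ℕ} (M : Matrix (Fin m) (Fin k) 𝕂) (M' : Matrix (Fin k) (Fin l) 𝕂),
      (M * M').map i = M.map i * M'.map i := fun M M' => Matrix.map_mul
  have hLi : (L.map i) * (B.map i) = 1 := by
    rw [← hmm, hL, Matrix.map_one i (map_zero i) (map_one i)]
  have hCi : ∀ γ : Γ, R γ * B.map i = B.map i * (C γ.1.2).map i := by
    intro γ
    change (mat ρ γ.1.2).map i * B.map i = _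
    rw [← hmm, hC1, hmm]
  have hdet : ∀ γ : Γ, ((C γ.1.2).map i).det ^ N = x γ ^ A := by
    intro γ
    have h1 : ((C γ.1.2).map i).det = i (C γ.1.2).det := (AlgHom.map_det i _).symm
    have h3 : ((dt ρ U hU' γ.1.2 : 𝕂ˣ) : 𝕂) ^ N = ((chiE ℓ 𝕂 γ.1.2 : 𝕂ˣ) : 𝕂) ^ A := by
      rw [← Units.val_pow_eq_pow_val, ← Units.val_zpow_eq_zpow_val]
      exact congrArg Units.val (hdt _)
    rw [h1, hC2, ← map_pow, h3, map_zpow₀, ← hcyc]
  obtain ⟨r, Y, E, hr, hsum, hYr, hPY, ⟨L', hL'⟩, hYa⟩ :=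
    exists_Y h x hx tate a P hPdet R hR (B.map i) (hfixM B) (L.map i) hLi
      (fun γ => (C γ.1.2).map i) hCi hdet
  have hJi : ∀ γ, (R γ)ᵀ * J.map i * R γ = x γ ^ (-w) • J.map i := by
    intro γ
    change ((mat ρ γ.1.2).map i)ᵀ * J.map i * (mat ρ γ.1.2).map i = cyc ℓ γ.1.2 ^ (-w) • J.map i
    rw [← Matrix.transpose_map, ← hmm, ← hmm, hpol]
    ext s t
    rw [Matrix.map_apply, Matrix.smul_apply, Matrix.smul_apply, smul_eq_mul, smul_eq_mul, map_mul,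
      map_zpow₀, AlgHom.commutes]
    rfl
  have hJidet : (J.map i).det ≠ 0 := by
    have h1 : (J.map i).det = i J.det := (AlgHom.map_det i _).symm
    rw [h1]
    exact (map_ne_zero i).2 hJdet
  have hBJB : Bᵀ * J * B = 0 := by
    ext k l
    have h1 := hiso _ (hBU k) _ (hBU l)
    rw [Matrix.zero_apply, Matrix.mul_assoc, Matrix.mul_apply]
    exact h1
  have hiso' : (P * Y)ᵀ * J.map i * (P * Y) = 0 := by
    have h1 : (B.map i)ᵀ * J.map i * B.map i = 0 := by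
      rw [← Matrix.transpose_map, ← hmm, ← hmm, hBJB, Matrix.map_zero i (map_zero i)]
    have h2 : (B.map i * E)ᵀ * J.map i * (B.map i * E) =
        Eᵀ * ((B.map i)ᵀ * J.map i * B.map i) * E := by
      rw [Matrix.transpose_mul]
      simp only [Matrix.mul_assoc]
    rw [hPY, h2, h1, Matrix.mul_zero, Matrix.zero_mul]
  obtain ⟨s, hs, hdisj, hsa⟩ := exists_s h x hx tate a P hPdet R hR (J.map i) (hfixM J) hJidet hJi
    hYr hL' hYa hiso'
  refine ⟨Multiset.map (fun j => a (r j)) Finset.univ.val, ?_, ?_, ?_⟩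
  · rw [Multiset.card_map, Finset.card_val, Finset.card_univ, Fintype.card_fin]
  · have h1 : (Multiset.map (fun j => a (r j)) Finset.univ.val).sum = ∑ j, a (r j) := rfl
    rw [h1]
    have hN' : (N : ℤ) ≠ 0 := Nat.cast_ne_zero.2 hN.ne'
    apply mul_left_cancel₀ hN'
    linear_combination 2 * hsum - hwA
  · have h1 : (Multiset.map (fun j => a (r j)) Finset.univ.val).map (fun x => w - x) =
        Multiset.map (fun j => a (s j)) Finset.univ.val := by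
      rw [Multiset.map_map]
      apply Multiset.map_congr rfl
      intro j _
      exact (hsa j).symm
    have h2 : Multiset.map (fun j => a (r j)) Finset.univ.val +
        Multiset.map (fun j => a (s j)) Finset.univ.val =
        Multiset.map a (Multiset.map r Finset.univ.val + Multiset.map s Finset.univ.val) := by
      rw [Multiset.map_add, Multiset.map_map, Multiset.map_map]
      rfl
    rw [h1, h2]
    apply Multiset.map_le_map
    rw [Multiset.le_iff_subset]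
    · intro y _
      exact Finset.mem_univ y
    · rw [Multiset.nodup_add]
      refine ⟨Multiset.Nodup.map hr Finset.univ.nodup, Multiset.Nodup.map hs Finset.univ.nodup, ?_⟩
      rw [Multiset.disjoint_left]
      intro y hy hy'
      obtain ⟨l, -, hl⟩ := Multiset.mem_map.1 hy
      obtain ⟨j, -, hj⟩ := Multiset.mem_map.1 hy'
      exact hdisj j l (hj.trans hl.symm)

/-- **Semisimplicity over `ℚ`.** -/
theorem semisimple_hodge (hρ : Continuous ρ) (j : 𝕂 →+* ℂ) (w : ℤ)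
    (R : HeightOneSpectrum (𝓞 ℚ) → Multiset ℂ)
    (T : Set ℕ) (hT3 : 3 ≤ T.encard) (hT : ∀ p ∈ T, p.Prime ∧ p ≠ ℓ ∧ UnramifiedIn ℚ p)
    (hR : ∀ p ∈ T, ∀ v, Above v p → PureAt ρ j w v (R v))
    (hgood : ∃ p ∈ T, ∀ v, Above v p → ∀ a ∈ R v, ‖a‖ ^ 2 = (qq v : ℝ) ^ w)
    (hpol : Polarized ℓ ρ w) {a : Fin n → ℤ} {i : 𝕂 →ₐ[ℚ_[ℓ]] PadicComplex ℓ}
    {e : AlgebraicClosure ℚ →+* PadicComplex ℓ} (htate : TateTheorem i e)
    (hHT : HodgeTate ρ i e a)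
    (hrel : ∀ k, 0 < k → 2 * k ≤ n → ¬ IsotropicWeights a w k ∨
      ∃ p ∈ T, ¬ IsotropicRelation R w p k) : Semisimple ρ := by
  by_contra hns
  obtain ⟨J, U, hJ, hU, hk0, h2k, hiso⟩ := exists_isotropic ℓ ρ hpol hns
  have hU' : ∀ g, U ≤ U.comap (act ρ g) := fun g x hx => hU g x hx
  rcases hrel _ hk0 h2k with hno | ⟨p, hp, hno⟩
  · obtain ⟨N, A, hN, hdt, hwA⟩ := exists_char ℓ ρ hρ j w R T hT3 hT hR hgood U hU hU'
    exact hno (isotropic_weights ℓ ρ htate hHT hJ hU hU' hiso hN hdt hwA)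
  · obtain ⟨B, hB⟩ := exists_B ℓ ρ hρ j w R T hT3 hT hR hgood U hU
    apply hno
    exact ⟨B, fun v hv => ((hB p hp).1 v hv).1, fun v hv => ((hB p hp).1 v hv).2.1,
      fun v hv => ((hB p hp).1 v hv).2.2.2 ⟨J, hJ, hiso⟩, (hB p hp).2⟩

end Pool.Agent.K7.H9.HT
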